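import Pool.Agent.K3h71.NP.Stm

/-!
# Project NP, brick GAUSS: irreducible factors of a monic polynomial over the fraction field
-/

set_option autoImplicit false

namespace Pool.Agent.K3h71.NP.G36

open Polynomial Pool.Agent.K3h71.NP

theorem nF_monic {R : Type} [CommRing R] [IsDomain R] (f : R[X]) (hf : f.Monic) :
    nF f = Nat.card {g : R[X] // g.Monic ∧ Irreducible g ∧ g ∣ f} := by
  unfold nF
  symm
  refine Nat.card_congr (Equiv.ofBijective
    (fun g : {g : R[X] // g.Monic ∧ Irreducible g ∧ g ∣ f} =>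
      (⟨Associates.mk g.1, Associates.irreducible_mk.mpr g.2.2.1,
        Associates.mk_dvd_mk.mpr g.2.2.2⟩ :
        {p : Associates R[X] // Irreducible p ∧ p ∣ Associates.mk f})) ⟨?_, ?_⟩)
  · intro g g' h
    have h1 : Associates.mk g.1 = Associates.mk g'.1 := congrArg Subtype.val h
    exact Subtype.ext (eq_of_monic_of_associated g.2.1 g'.2.1 (Associates.mk_eq_mk_iff_associated.mp h1))
  · rintro ⟨p, hp, hpf⟩
    obtain ⟨q, rfl⟩ := Associates.mk_surjective p
    have hq : Irreducible q := Associates.irreducible_mk.mp hp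
    have hqf : q ∣ f := Associates.mk_dvd_mk.mp hpf
    obtain ⟨r, hr⟩ := hqf
    have h1 : q.leadingCoeff * r.leadingCoeff = 1 := by
      rw [← leadingCoeff_mul, ← hr]
      exact hf
    let u : Rˣ := ⟨q.leadingCoeff, r.leadingCoeff, h1, by rw [mul_comm]; exact h1⟩
    have hass : Associated q (C r.leadingCoeff * q) := by
      refine ⟨⟨C r.leadingCoeff, C q.leadingCoeff, ?_, ?_⟩, ?_⟩
      · rw [← C_mul, mul_comm, h1, C_1]
      · rw [← C_mul, h1, C_1]
      · rw [mul_comm]
    refine ⟨⟨C r.leadingCoeff * q, ?_, hass.irreducible hq, ?_⟩, ?_⟩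
    · rw [Monic, leadingCoeff_mul, leadingCoeff_C, mul_comm]
      exact h1
    · exact hass.symm.dvd.trans ⟨r, hr⟩
    · apply Subtype.ext
      exact (Associates.mk_eq_mk_iff_associated.mpr hass).symm

theorem t_Gauss : StmGauss := by
  intro R K _ _ _ _ _ _ f hf
  rw [nF_monic f hf, nF_monic (f.map (algebraMap R K)) (hf.map _)]
  symm
  refine Nat.card_congr (Equiv.ofBijective
    (fun g : {g : R[X] // g.Monic ∧ Irreducible g ∧ g ∣ f} =>
      (⟨g.1.map (algebraMap R K), g.2.1.map _,
        (Monic.irreducible_iff_irreducible_map_fraction_map g.2.1).mp g.2.2.1,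
        Polynomial.map_dvd _ g.2.2.2⟩ :
        {g : K[X] // g.Monic ∧ Irreducible g ∧ g ∣ f.map (algebraMap R K)})) ⟨?_, ?_⟩)
  · intro g g' h
    have h1 : g.1.map (algebraMap R K) = g'.1.map (algebraMap R K) := congrArg Subtype.val h
    exact Subtype.ext (Polynomial.map_injective _ (IsFractionRing.injective R K) h1)
  · rintro ⟨g, hg, hgi, hgf⟩
    obtain ⟨g', hg'⟩ := IsIntegrallyClosed.eq_map_mul_C_of_dvd K hf hgf
    rw [hg.leadingCoeff, C_1, mul_one] at hg'
    have hm : g'.Monic := Polynomial.monic_of_injective (IsFractionRing.injective R K)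
      (by rw [hg']; exact hg)
    refine ⟨⟨g', hm, ?_, ?_⟩, ?_⟩
    · rw [Monic.irreducible_iff_irreducible_map_fraction_map (K := K) hm, hg']
      exact hgi
    · rw [← Polynomial.map_dvd_map (algebraMap R K) (IsFractionRing.injective R K) hm, hg']
      exact hgf
    · exact Subtype.ext hg'

end Pool.Agent.K3h71.NP.G36
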